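import Pool.Agent.helper52.WP.SpecA

/-!
# Project wp: (MP_af9036_an), module CI1: each of the integrals of the closed chain
-/

set_option autoImplicit false

open Complex Metric Set Filter Topology MeasureTheory
open V3S (UF)
open WP
open Pool.Agent.helper16.Multibrot

noncomputable section

namespace WPA

/-- the pointwise estimate. -/
theorem CI1_point (CL ρ : ℝ) (N D g v : ℂ) (hCL : 0 < CL) (hρ : 0 < ρ) (hD : D ≠ 0) (hg : g ≠ 0)
    (h1 : ‖N - D * g‖ ≤ CL * ‖g‖ ^ 2 / ρ * ‖D‖) (h2 : CL * ‖g‖ / ρ ≤ 1 / 2) :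
    N ≠ 0 ∧ ‖1 / N * (D * v) - 1 / g * v‖ ≤ 2 * CL * ‖v‖ / ρ := by
  have hDp : 0 < ‖D‖ := norm_pos_iff.2 hD
  have hgp : 0 < ‖g‖ := norm_pos_iff.2 hg
  have hN : ‖D‖ * ‖g‖ / 2 ≤ ‖N‖ := by
    have h3 : ‖D * g‖ ≤ ‖N‖ + ‖N - D * g‖ := by
      have := norm_sub_le N (N - D * g)
      rwa [sub_sub_cancel] at this
    rw [norm_mul] at h3
    have h4 : CL * ‖g‖ ^ 2 / ρ * ‖D‖ = (CL * ‖g‖ / ρ) * (‖D‖ * ‖g‖) := by ring
    have h5 : (CL * ‖g‖ / ρ) * (‖D‖ * ‖g‖) ≤ 1 / 2 * (‖D‖ * ‖g‖) :=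
      mul_le_mul_of_nonneg_right h2 (by positivity)
    rw [h4] at h1
    linarith
  have hNp : 0 < ‖N‖ := lt_of_lt_of_le (by positivity) hN
  have hN0 : N ≠ 0 := norm_pos_iff.1 hNp
  refine ⟨hN0, ?_⟩
  have key : 1 / N * (D * v) - 1 / g * v = v * (D * g - N) / (N * g) := by
    field_simp
  rw [key, norm_div, norm_mul, norm_mul, div_le_iff₀ (mul_pos hNp hgp)]
  rw [norm_sub_rev] at h1
  have hcr : (0 : ℝ) ≤ 2 * CL * ‖v‖ / ρ * ‖g‖ := by positivity
  calc ‖v‖ * ‖D * g - N‖ ≤ ‖v‖ * (CL * ‖g‖ ^ 2 / ρ * ‖D‖) :=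
        mul_le_mul_of_nonneg_left h1 (norm_nonneg _)
    _ = 2 * CL * ‖v‖ / ρ * ‖g‖ * (‖D‖ * ‖g‖ / 2) := by ring
    _ ≤ 2 * CL * ‖v‖ / ρ * ‖g‖ * ‖N‖ := mul_le_mul_of_nonneg_left hN hcr
    _ = 2 * CL * ‖v‖ / ρ * (‖N‖ * ‖g‖) := by ring

/-- the two estimates for a direction `a`. -/
theorem CI1_dir (CL : ℝ) (hCL : 1 ≤ CL)
    (hLIN : ∀ (h : ℂ → ℂ) (w : ℂ) (ρ : ℝ), 0 < ρ → DifferentiableOn ℂ h (ball w ρ) →
      InjOn h (ball w ρ) →
      (∀ x ∈ ball w (ρ / 2), ∀ g : ℂ, ‖g‖ < ρ / 4 →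
        ‖h (x + g) - h x - deriv h x * g‖ ≤ CL * ‖g‖ ^ 2 / ρ * ‖deriv h x‖) ∧
      (∀ x ∈ ball w (ρ / 4), ∀ b : ℂ, b ∉ h '' ball w (ρ / 2) → ρ * ‖deriv h x‖ ≤ CL * ‖h x - b‖) ∧
      (∀ x ∈ ball w ρ, deriv h x ≠ 0) ∧
      (∀ x ∈ ball w (ρ / 2), ∀ x' ∈ ball w (ρ / 2), ‖deriv h x‖ ≤ CL * ‖deriv h x'‖))
    (hITB : ITB_stmt) (f : Polynomial ℂ) (δ ε₁ ε : ℝ) (k : ℕ) (w : ℂ) (ρ : ℝ) (y a : ℂ)
    (hb : Bs f δ ε₁ ε k w ρ) (hε : (4 * CL + 128) * ε ≤ 1)
    (hseg : ∀ s ∈ Icc (0 : ℝ) 1, y + (s : ℂ) * a ∈ ball w (ρ / 32)) (q : ℕ) (hq : q < k) :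
    ‖cI f k q y a - cI f k 0 y a‖ ≤ 2 * CL * ‖a‖ / ρ ∧
    ‖cI f k 0 y a - a / (it f k y - y)‖ ≤ 64 * (‖a‖ / ρ) * ‖a / (it f k y - y)‖ := by
  obtain ⟨hI0, -, -, hId, -, hId0, -, hIinj⟩ := hITB f
  have hρ := hb.rho
  have hε0 := hb.e0
  have hCL0 : 0 < CL := by linarith
  -- facts at the points of the segment
  have hsub : ball w (ρ / 32) ⊆ ball w (ρ / 16) := ball_subset_ball (by linarith)
  have hsub2 : ball w (ρ / 32) ⊆ ball w (ρ / 2) := ball_subset_ball (by linarith)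
  have hsub3 : ball w (ρ / 32) ⊆ ball w ρ := ball_subset_ball (by linarith)
  have hy : y ∈ ball w (ρ / 32) := by
    have := hseg 0 ⟨le_refl _, zero_le_one⟩
    simpa using this
  have hglo : ∀ x ∈ ball w (ρ / 32), ε * ρ / 2 ≤ ‖it f k x - x‖ := fun x hx => hb.lo x (hsub hx)
  have hghi : ∀ x ∈ ball w (ρ / 32), ‖it f k x - x‖ ≤ 2 * ε * ρ := fun x hx => hb.hi x (hsub hx)
  have hg0 : ∀ x ∈ ball w (ρ / 32), it f k x - x ≠ 0 := by
    intro x hx h0
    have := hglo x hx
    rw [h0, norm_zero] at this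
    have h1 : 0 < ε * ρ / 2 := by positivity
    linarith
  -- the estimate of `N`
  have hpt : ∀ r < k, ∀ x ∈ ball w (ρ / 32),
      it f r (it f k x) - it f r x ≠ 0 ∧
      ‖1 / (it f r (it f k x) - it f r x) * (deriv (it f r) x * a) - 1 / (it f k x - x) * a‖ ≤
        2 * CL * ‖a‖ / ρ := by
    intro r hr x hx
    have hinj : InjOn (it f r) (ball w ρ) := hIinj _ r k hr.le hb.inj
    obtain ⟨hL1, -, hL3, -⟩ := hLIN (it f r) w ρ hρ ((hId r).differentiableOn) hinj
    have hgs : ‖it f k x - x‖ < ρ / 4 := by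
      refine lt_of_le_of_lt (hghi x hx) ?_
      have h128 : ε ≤ 1 / 128 := by nlinarith
      nlinarith
    have h1 := hL1 x (hsub2 hx) (it f k x - x) hgs
    rw [add_sub_cancel] at h1
    have h2 : CL * ‖it f k x - x‖ / ρ ≤ 1 / 2 := by
      rw [div_le_iff₀ hρ]
      have h3 := hghi x hx
      have h4 : CL * ‖it f k x - x‖ ≤ CL * (2 * ε * ρ) := mul_le_mul_of_nonneg_left h3 hCL0.le
      have h5 : CL * (2 * ε) ≤ 1 / 2 := by nlinarith
      nlinarith
    exact CI1_point CL ρ _ _ _ a hCL0 hρ (hL3 x (hsub3 hx)) (hg0 x hx) h1 h2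
  -- continuity
  have hline : Continuous (fun s : ℝ => y + (s : ℂ) * a) := by fun_prop
  have hcont : ∀ r < k, ContinuousOn (fun s : ℝ =>
      1 / (it f r (it f k (y + s * a)) - it f r (y + s * a)) * (deriv (it f r) (y + s * a) * a))
      (Icc (0 : ℝ) 1) := by
    intro r hr
    have hd : Continuous (deriv (it f r)) := by
      have h1 : DifferentiableOn ℂ (deriv (it f r)) univ :=
        (hId r).differentiableOn.deriv isOpen_univ
      exact (differentiableOn_univ.1 h1).continuous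
    have hc1 : Continuous (fun s : ℝ => it f r (it f k (y + s * a)) - it f r (y + s * a)) :=
      (((hId r).continuous.comp ((hId k).continuous.comp hline))).sub
        ((hId r).continuous.comp hline)
    have hc2 : Continuous (fun s : ℝ => deriv (it f r) (y + s * a) * a) :=
      (hd.comp hline).mul continuous_const
    exact (continuousOn_const.div hc1.continuousOn
      (fun s hs => (hpt r hr _ (hseg s hs)).1)).mul hc2.continuousOn
  have hint : ∀ r < k, IntervalIntegrable (fun s : ℝ =>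
      1 / (it f r (it f k (y + s * a)) - it f r (y + s * a)) * (deriv (it f r) (y + s * a) * a))
      volume 0 1 := by
    intro r hr
    apply ContinuousOn.intervalIntegrable
    rw [uIcc_of_le zero_le_one]
    exact hcont r hr
  have hmem : ∀ s ∈ Set.uIoc (0 : ℝ) 1, s ∈ Icc (0 : ℝ) 1 := by
    intro s hs
    rw [uIoc_of_le zero_le_one] at hs
    exact ⟨hs.1.le, hs.2⟩
  have hk0 : 0 < k := by omega
  constructor
  · unfold cI
    rw [← intervalIntegral.integral_sub (hint q hq) (hint 0 hk0)]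
    have hbd := intervalIntegral.norm_integral_le_of_norm_le_const
      (a := (0 : ℝ)) (b := 1) (C := 2 * CL * ‖a‖ / ρ)
      (f := fun s : ℝ =>
        1 / (it f q (it f k (y + s * a)) - it f q (y + s * a)) * (deriv (it f q) (y + s * a) * a) -
        1 / (it f 0 (it f k (y + s * a)) - it f 0 (y + s * a)) * (deriv (it f 0) (y + s * a) * a))
      (by
        intro s hs
        have hx := hseg s (hmem s hs)
        rw [hI0, hI0, hId0, one_mul]
        exact (hpt q hq _ hx).2)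
    simpa using hbd
  · have hconst : a / (it f k y - y) = ∫ _ in (0 : ℝ)..1, a / (it f k y - y) := by
      rw [intervalIntegral.integral_const]; simp
    have hdiff : ∀ x ∈ ball w (ρ / 16), ∀ x' ∈ ball w (ρ / 16),
        ‖(it f k x' - x') - (it f k x - x)‖ ≤ 32 * ε * ‖x' - x‖ := by
      intro x hx x' hx'
      refine Convex.norm_image_sub_le_of_norm_deriv_le (f := fun z => it f k z - z) (𝕜 := ℂ)
        (s := ball w (ρ / 16)) ?_ ?_ (convex_ball _ _) hx hx'
      · intro z _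
        exact ((hId k) z).sub differentiableAt_id
      · intro z hz
        have : deriv (fun z => it f k z - z) z = deriv (it f k) z - 1 := by
          rw [deriv_fun_sub ((hId k) z) differentiableAt_fun_id, deriv_id'']
        rw [this]
        exact hb.de z hz
    have hest : ∀ s ∈ Icc (0 : ℝ) 1,
        ‖1 / (it f k (y + s * a) - (y + s * a)) * a - a / (it f k y - y)‖ ≤
          64 * (‖a‖ / ρ) * ‖a / (it f k y - y)‖ := by
      intro s hs
      have hx := hseg s hs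
      have hgx := hg0 _ hx
      have hgy := hg0 _ hy
      have hkey : 1 / (it f k (y + s * a) - (y + s * a)) * a - a / (it f k y - y) =
          a / (it f k y - y) * (((it f k y - y) - (it f k (y + s * a) - (y + s * a))) /
            (it f k (y + s * a) - (y + s * a))) := by
        field_simp
      rw [hkey, norm_mul, mul_comm]
      refine mul_le_mul_of_nonneg_right ?_ (norm_nonneg _)
      rw [norm_div]
      have h1 := hdiff _ (hsub hx) _ (hsub hy)
      have h2 : ‖y - (y + s * a)‖ ≤ ‖a‖ := by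
        have h3 : y - (y + (s : ℂ) * a) = -((s : ℂ) * a) := by ring
        rw [h3, norm_neg, norm_mul, Complex.norm_real, Real.norm_eq_abs, abs_of_nonneg hs.1]
        exact mul_le_of_le_one_left (norm_nonneg _) hs.2
      have h4 := hglo _ hx
      have hpos : 0 < ‖it f k (y + s * a) - (y + s * a)‖ := norm_pos_iff.2 hgx
      rw [div_le_iff₀ hpos]
      calc ‖(it f k y - y) - (it f k (y + s * a) - (y + s * a))‖
          ≤ 32 * ε * ‖y - (y + s * a)‖ := h1
        _ ≤ 32 * ε * ‖a‖ := mul_le_mul_of_nonneg_left h2 (by positivity)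
        _ = 64 * (‖a‖ / ρ) * (ε * ρ / 2) := by field_simp; ring
        _ ≤ 64 * (‖a‖ / ρ) * ‖it f k (y + s * a) - (y + s * a)‖ :=
            mul_le_mul_of_nonneg_left h4 (by positivity)
    unfold cI
    rw [hconst]
    rw [← intervalIntegral.integral_sub (hint 0 hk0) intervalIntegrable_const]
    rw [← hconst]
    have hbd := intervalIntegral.norm_integral_le_of_norm_le_const
      (a := (0 : ℝ)) (b := 1) (C := 64 * (‖a‖ / ρ) * ‖a / (it f k y - y)‖)
      (f := fun s : ℝ =>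
        1 / (it f 0 (it f k (y + s * a)) - it f 0 (y + s * a)) * (deriv (it f 0) (y + s * a) * a) -
        a / (it f k y - y))
      (by
        intro s hs
        rw [hI0, hI0, hId0, one_mul]
        exact hest s (hmem s hs))
    simpa using hbd

theorem CI1 (hLIN : LIN_stmt) (hITB : ITB_stmt) : CI1_stmt := by
  obtain ⟨CL, hCL, hL⟩ := hLIN
  refine ⟨4 * CL + 128, by linarith, ?_⟩
  intro f δ ε₁ ε k w ρ m y hR hCε
  have hb := hR.bs
  have hρ := hb.rho
  have hε0 := hb.e0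
  have hε128 : ε ≤ 1 / 128 := by nlinarith
  have hy1 := hR.y1
  have hy2 := hR.y2
  rw [mem_ball, dist_eq_norm] at hy1 hy2
  have hv : ‖it f m y - y‖ < ρ / 100 := by
    have h1 : it f m y - y = (it f m y - w) - (y - w) := by ring
    rw [h1]
    refine lt_of_le_of_lt (norm_sub_le _ _) ?_
    linarith
  have hy16 : y ∈ ball w (ρ / 16) := by
    rw [mem_ball, dist_eq_norm]; linarith
  have hu := hb.hi y hy16
  have hulo := hb.lo y hy16
  have hupos : 0 < ‖it f k y - y‖ := lt_of_lt_of_le (by positivity) hulo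
  have hu0 : it f k y - y ≠ 0 := norm_pos_iff.1 hupos
  have hsegv : ∀ s ∈ Icc (0 : ℝ) 1, y + (s : ℂ) * (it f m y - y) ∈ ball w (ρ / 32) := by
    intro s hs
    rw [mem_ball, dist_eq_norm]
    have h1 : y + (s : ℂ) * (it f m y - y) - w = (y - w) + (s : ℂ) * (it f m y - y) := by ring
    rw [h1]
    refine lt_of_le_of_lt (norm_add_le _ _) ?_
    rw [norm_mul, Complex.norm_real, Real.norm_eq_abs, abs_of_nonneg hs.1]
    have h2 : s * ‖it f m y - y‖ ≤ ‖it f m y - y‖ := mul_le_of_le_one_left (norm_nonneg _) hs.2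
    linarith
  have hsegu : ∀ s ∈ Icc (0 : ℝ) 1, y + (s : ℂ) * (it f k y - y) ∈ ball w (ρ / 32) := by
    intro s hs
    rw [mem_ball, dist_eq_norm]
    have h1 : y + (s : ℂ) * (it f k y - y) - w = (y - w) + (s : ℂ) * (it f k y - y) := by ring
    rw [h1]
    refine lt_of_le_of_lt (norm_add_le _ _) ?_
    rw [norm_mul, Complex.norm_real, Real.norm_eq_abs, abs_of_nonneg hs.1]
    have h2 : s * ‖it f k y - y‖ ≤ ‖it f k y - y‖ := mul_le_of_le_one_left (norm_nonneg _) hs.2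
    have h3 : 2 * ε * ρ ≤ ρ / 64 := by nlinarith
    linarith
  have hk0 : 0 < k := hb.k1
  refine ⟨?_, ?_⟩
  · intro q hq
    constructor
    · refine (CI1_dir CL hCL hL hITB f δ ε₁ ε k w ρ y _ hb hCε hsegv q hq).1.trans ?_
      rw [div_le_div_iff_of_pos_right hρ]
      exact mul_le_mul_of_nonneg_right (by linarith) (norm_nonneg _)
    · obtain ⟨hA, hB⟩ := CI1_dir CL hCL hL hITB f δ ε₁ ε k w ρ y _ hb hCε hsegu q hq
      rw [div_self hu0, norm_one, mul_one] at hB
      have h1 : cI f k q y (it f k y - y) - 1 =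
          (cI f k q y (it f k y - y) - cI f k 0 y (it f k y - y)) +
            (cI f k 0 y (it f k y - y) - 1) := by ring
      rw [h1]
      refine (norm_add_le _ _).trans ?_
      have h2 : ‖it f k y - y‖ / ρ ≤ 2 * ε := by
        rw [div_le_iff₀ hρ]; exact hu
      have h3 : 2 * CL * ‖it f k y - y‖ / ρ = 2 * CL * (‖it f k y - y‖ / ρ) := by ring
      rw [h3] at hA
      have h4 : 2 * CL * (‖it f k y - y‖ / ρ) ≤ 2 * CL * (2 * ε) :=
        mul_le_mul_of_nonneg_left h2 (by linarith)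
      linarith
  · refine (CI1_dir CL hCL hL hITB f δ ε₁ ε k w ρ y _ hb hCε hsegv 0 hk0).2.trans ?_
    refine mul_le_mul_of_nonneg_right ?_ (norm_nonneg _)
    exact mul_le_mul_of_nonneg_right (by linarith) (by positivity)

end WPA
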