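import Pool.Agent.helper52.WP.SpecB
import Pool.Agent.helper52.WP.SpecA

/-!
# Project wp: (MP_af9036_an), module LOC: position and size of a near identity disc
-/

set_option autoImplicit false

open Complex Metric Set Filter Topology MeasureTheory
open V3S (UF)
open WP
open PPS (pre TT fd)
open XPS (Df er)

noncomputable section

namespace WPB

theorem LOC (hESC : WPA.ESC_stmt) : LOC_stmt := by
  intro n c C ε k w ρ hn hc hε hG
  obtain ⟨_, _, hesc, hinj⟩ := hESC n c hn hc
  have hρw : ρ ≤ ‖w‖ := hinj k w ρ hG.k1 hG.inj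
  have hρ := hG.rho
  have hw : ‖w‖ < 4 := by
    by_contra hcon
    push Not at hcon
    have h1 := hesc w k hcon hG.k1
    have h2 := hG.near w (mem_ball_self hρ)
    have h3 : ‖it (GR.fp n c) k w‖ ≤ ‖it (GR.fp n c) k w - w‖ + ‖w‖ := by
      have := norm_add_le (it (GR.fp n c) k w - w) w
      rwa [sub_add_cancel] at this
    have h4 : ε * ρ ≤ ρ := mul_le_of_le_one_left hρ.le hε
    linarith
  exact ⟨hw, hρw.trans hw.le⟩

end WPB
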