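import Pool.Agent.helper52.WP.SpecT
import Pool.Agent.helper21.MP.HSM

/-! # Project wp: (MP_af9036_an): module STC: the start for one datum (copy of helper56/XP/STC) -/

set_option autoImplicit false

open Complex Metric Set Filter Topology MeasureTheory
open V3S (UF)
open WP

noncomputable section

namespace WPT

theorem STC_ofReal_sum {ι : Type} (s : Finset ι) (u : ι → ℝ) :
    ENNReal.ofReal (∑ i ∈ s, u i) ≤ ∑ i ∈ s, ENNReal.ofReal (u i) := by
  classical
  induction s using Finset.induction_on with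
  | empty => simp
  | insert a s ha ih =>
    rw [Finset.sum_insert ha, Finset.sum_insert ha]
    exact ENNReal.ofReal_add_le.trans (add_le_add le_rfl ih)

/-- Measurability of the pulled back densities. -/
theorem STC_meas (hMI : WPS.MIX_stmt) {f : Polynomial ℂ}
    {P : Set ℂ} {B : ℂ → ℂ} (hf : WPS.AD f P B) {G : ℂ → ℂ} {Ω : Set ℂ} (hΩ : IsOpen Ω)
    (hG : DifferentiableOn ℂ G Ω) :
    AEMeasurable (fun w => ENNReal.ofReal (XPS.dens f B G w)) (volume.restrict Ω) := by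
  obtain ⟨-, -, her, hDf, -⟩ := hMI f P B hf
  have hGm : AEMeasurable G (volume.restrict Ω) :=
    (hG.continuousOn.aestronglyMeasurable hΩ.measurableSet).aemeasurable
  have h1 : AEMeasurable (fun w => XPS.Df f B (G w)) (volume.restrict Ω) :=
    hDf.comp_aemeasurable hGm
  have h2 : AEMeasurable (fun w => XPS.er f B (G w)) (volume.restrict Ω) :=
    her.comp_aemeasurable hGm
  have h3 : Measurable (deriv G) := measurable_deriv G
  unfold XPS.dens
  exact ((h1.add (h2.norm.const_mul 2)).mul (h3.norm.pow_const 2).aemeasurable).ennreal_ofReal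

theorem STC (hSTS : STS_stmt) (hADH : WPL.ADH_stmt) (hLVG : XPS.LVG_stmt) (hMAX : WPS.MAX_stmt)
    (hLEA : WPS.LEAX_stmt) (hMI : WPS.MIX_stmt) : STC_stmt := by
  intro n C A D hG x₀ ρ r χ Ψ hSt
  obtain ⟨hLS, -, hinj, hmaps, hmult⟩ := hSTS n C A D hG x₀ ρ r χ Ψ hSt
  obtain ⟨had, -, -, hE⟩ := hADH n C A D hG
  set G := tw D Ψ χ with hGdef
  set Ω : Set ℂ := ball (0 : ℂ) (2 * r) with hΩ
  have hΩo : IsOpen Ω := isOpen_ball
  have hr : 0 < r := hSt.r0
  have hE0 : 0 ≤ D.E := hG.eng.E0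
  have hdeg : 1 ≤ D.f.natDegree := had.deg
  obtain ⟨-, -, htau, -, -⟩ := hLEA D.f D.PP D.H G Ω D.k had hΩo hLS
  -- total mass
  have hcond : ∀ q < D.k, IsOpen Ω ∧ DifferentiableOn ℂ (G q) Ω ∧ InjOn (G q) Ω ∧
      MapsTo (G q) Ω (ball 0 D.rad) :=
    fun q hq => ⟨hΩo, hLS.diff q hq.le, hinj q hq.le, hmaps q hq⟩
  obtain ⟨hM1, -⟩ := hMAX D.f D.PP D.H D.rad D.E had hE D.k 1 (fun _ => Ω) G hcond hmult
  rw [Nat.cast_one, one_mul] at hM1
  have hdens : ∫⁻ w in Ω, ENNReal.ofReal (∑ q ∈ Finset.range D.k, XPS.dens D.f D.H (G q) w) ≤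
      ENNReal.ofReal D.E := by
    calc ∫⁻ w in Ω, ENNReal.ofReal (∑ q ∈ Finset.range D.k, XPS.dens D.f D.H (G q) w)
        ≤ ∫⁻ w in Ω, ∑ q ∈ Finset.range D.k, ENNReal.ofReal (XPS.dens D.f D.H (G q) w) :=
          lintegral_mono fun w => STC_ofReal_sum _ _
      _ = ∑ q ∈ Finset.range D.k, ∫⁻ w in Ω, ENNReal.ofReal (XPS.dens D.f D.H (G q) w) := by
          refine lintegral_finset_sum' _ fun q hq => ?_
          exact STC_meas hMI had hΩo (hLS.diff q (Finset.mem_range.1 hq).le)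
      _ ≤ ENNReal.ofReal D.E := hM1
  have htau0 : ∀ w ∈ Ω, XPS.tau D.H G 0 w = 1 := fun w hw => hLS.nat0.eq w hw
  have hlv : ∀ w ∈ Ω, ∑ q ∈ Finset.Icc 1 D.k, XPS.lev D.H G q w ≤
      ∑ q ∈ Finset.range D.k, XPS.dens D.f D.H (G q) w + 1 - ‖XPS.tau D.H G D.k w‖ := by
    intro w hw
    have h := (hLVG D.f D.H G Ω D.k hdeg hΩo hLS.diff hLS.rel w hw).1
    rw [htau0 w hw, norm_one] at h
    exact h
  intro τ₀ hτ₀ w hw
  have hsub : ball w r ⊆ Ω := by
    intro z hz
    rw [hΩ, mem_ball_zero_iff]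
    rw [mem_ball, dist_eq_norm] at hz
    rw [mem_ball_zero_iff] at hw
    calc ‖z‖ = ‖(z - w) + w‖ := by rw [sub_add_cancel]
      _ ≤ ‖z - w‖ + ‖w‖ := norm_add_le _ _
      _ < 2 * r := by linarith
  -- mean value
  have hms : ENNReal.ofReal (Real.pi * r ^ 2 * ∑ q ∈ Finset.Icc 1 D.k, XPS.lev D.H G q w) ≤
      ∫⁻ z in ball w r, ENNReal.ofReal (∑ q ∈ Finset.Icc 1 D.k, XPS.lev D.H G q z) := by
    refine MPS.HSM ℕ (Finset.Icc 1 D.k)
      (fun q z => XPS.tau D.H G (q - 1) z - XPS.tau D.H G q z) w r hr ?_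
    intro q hq
    rw [Finset.mem_Icc] at hq
    exact ((htau (q - 1) (by omega)).mono hsub).sub ((htau q hq.2).mono hsub)
  have hlev0 : ∀ z, 0 ≤ ∑ q ∈ Finset.Icc 1 D.k, XPS.lev D.H G q z := fun z =>
    Finset.sum_nonneg fun q _ => norm_nonneg _
  set a : ℝ := max (-τ₀) 0 with ha
  set b : ℝ := max τ₀ 0 with hb
  have ha0 : 0 ≤ a := le_max_right _ _
  have hb0 : 0 ≤ b := le_max_right _ _
  have hab : b - a = τ₀ := by
    rcases le_total 0 τ₀ with h | h
    · have e1 : a = 0 := max_eq_right (by linarith)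
      have e2 : b = τ₀ := max_eq_left h
      rw [e1, e2, sub_zero]
    · have e1 : a = -τ₀ := max_eq_left (by linarith)
      have e2 : b = 0 := max_eq_right h
      rw [e1, e2]
      ring
  have hvol : volume (ball w r) = ENNReal.ofReal (Real.pi * r ^ 2) := by
    rw [Complex.volume_ball, ← ENNReal.ofReal_pow hr.le,
      ← ENNReal.ofReal_coe_nnreal, ← ENNReal.ofReal_mul (by positivity)]
    congr 1
    rw [mul_comm]
    rfl
  have key : ENNReal.ofReal (Real.pi * r ^ 2 * ∑ q ∈ Finset.Icc 1 D.k, XPS.lev D.H G q w) +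
      ENNReal.ofReal a * ENNReal.ofReal (Real.pi * r ^ 2) ≤
      ENNReal.ofReal D.E + ENNReal.ofReal b * ENNReal.ofReal (Real.pi * r ^ 2) := by
    calc _ ≤ (∫⁻ z in ball w r, ENNReal.ofReal (∑ q ∈ Finset.Icc 1 D.k, XPS.lev D.H G q z)) +
          ∫⁻ _ in ball w r, ENNReal.ofReal a := by
          rw [setLIntegral_const, hvol]
          exact add_le_add hms le_rfl
      _ ≤ ∫⁻ z in ball w r, (ENNReal.ofReal (∑ q ∈ Finset.Icc 1 D.k, XPS.lev D.H G q z) +
          ENNReal.ofReal a) := le_lintegral_add _ _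
      _ ≤ ∫⁻ z in ball w r, (ENNReal.ofReal (∑ q ∈ Finset.range D.k, XPS.dens D.f D.H (G q) z) +
          ENNReal.ofReal b) := by
          refine setLIntegral_mono' measurableSet_ball fun z hz => ?_
          have h1 := hlv z (hsub hz)
          have h2 := hτ₀ z (hsub hz)
          rw [← ENNReal.ofReal_add (hlev0 z) ha0]
          refine le_trans (ENNReal.ofReal_le_ofReal ?_) ENNReal.ofReal_add_le
          linarith
      _ = (∫⁻ z in ball w r,
            ENNReal.ofReal (∑ q ∈ Finset.range D.k, XPS.dens D.f D.H (G q) z)) +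
          ENNReal.ofReal b * ENNReal.ofReal (Real.pi * r ^ 2) := by
          rw [lintegral_add_right _ measurable_const, setLIntegral_const, hvol]
      _ ≤ _ := by
          refine add_le_add ?_ le_rfl
          exact (lintegral_mono_set hsub).trans hdens
  have hS := hlev0 w
  have hpi : 0 < Real.pi * r ^ 2 := by positivity
  rw [← ENNReal.ofReal_mul ha0, ← ENNReal.ofReal_mul hb0,
    ← ENNReal.ofReal_add (by positivity) (by positivity),
    ← ENNReal.ofReal_add hE0 (by positivity),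
    ENNReal.ofReal_le_ofReal_iff (by positivity)] at key
  have h3 : Real.pi * r ^ 2 * ∑ q ∈ Finset.Icc 1 D.k, XPS.lev D.H G q w ≤
      D.E + τ₀ * (Real.pi * r ^ 2) := by
    rw [← hab]
    linarith
  have h4 : D.E / (Real.pi * r ^ 2) * (Real.pi * r ^ 2) = D.E :=
    div_mul_cancel₀ _ hpi.ne'
  by_contra hcon
  rw [not_le] at hcon
  have h5 := mul_lt_mul_of_pos_right hcon hpi
  rw [add_mul, h4] at h5
  linarith

end WPT
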